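import Pool.Agent.H44.FB.Basics

/-!
# Compactness for homogeneous structures
-/

set_option autoImplicit false

namespace Pool.Agent.H94.FB

open Pool.Agent.H68.BP Pool.Agent.H58.SF Pool.Agent.H53.NR
open Pool.Agent.H57.AR (tp ty Ty)
open Pool.Agent.H44.KR Pool.Agent.H44.FB
open Function Classical

section
variable {V X : Type} {ρ : Sig} (𝔹 : Str ρ V) (F : Finset X → X → V)
  (𝒰 : Ultrafilter (Finset X))

/-- limit equality -/
def cptE (a b : X) : Prop := ∀ᶠ Y in (𝒰 : Filter (Finset X)), F Y a = F Y b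

/-- limit relation -/
def cptR (l : Fin ρ.m) (z : Fin (ρ.ar l) → X) : Prop :=
  ∀ᶠ Y in (𝒰 : Filter (Finset X)), 𝔹 l (fun i => F Y (z i))

/-- the map `f` has the limit type on the set `A` -/
def cptL (f : X → V) (A : Finset X) : Prop :=
  (∀ a ∈ A, ∀ b ∈ A, (f a = f b ↔ cptE F 𝒰 a b)) ∧
    ∀ (l : Fin ρ.m) (z : Fin (ρ.ar l) → X), (∀ i, z i ∈ A) →
      (𝔹 l (fun i => f (z i)) ↔ cptR 𝔹 F 𝒰 l z)

theorem cpt_claim1 (A : Finset X) :
    ∀ᶠ Y in (𝒰 : Filter (Finset X)), cptL 𝔹 F 𝒰 (F Y) A := by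
  have key : ∀ p : Finset X → Prop, ∀ᶠ Y in (𝒰 : Filter (Finset X)),
      (p Y ↔ ∀ᶠ Z in (𝒰 : Filter (Finset X)), p Z) := by
    intro p
    by_cases h : ∀ᶠ Z in (𝒰 : Filter (Finset X)), p Z
    · exact h.mono fun Y hY => ⟨fun _ => h, fun _ => hY⟩
    · exact (Ultrafilter.eventually_not.2 h).mono fun Y hY =>
        ⟨fun h' => absurd h' hY, fun h' => absurd h' h⟩
  have h1 : ∀ᶠ Y in (𝒰 : Filter (Finset X)), ∀ a ∈ A, ∀ b ∈ A,
      (F Y a = F Y b ↔ cptE F 𝒰 a b) := by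
    rw [Filter.eventually_all_finset]
    intro a _
    rw [Filter.eventually_all_finset]
    intro b _
    exact key fun Y => F Y a = F Y b
  have h2 : ∀ᶠ Y in (𝒰 : Filter (Finset X)), ∀ (l : Fin ρ.m) (z : Fin (ρ.ar l) → {x // x ∈ A}),
      (𝔹 l (fun i => F Y (z i)) ↔ cptR 𝔹 F 𝒰 l (fun i => (z i : X))) := by
    rw [Filter.eventually_all]
    intro l
    rw [Filter.eventually_all]
    intro z
    exact key fun Y => 𝔹 l (fun i => F Y (z i))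
  filter_upwards [h1, h2] with Y hY1 hY2
  exact ⟨hY1, fun l z hz => hY2 l fun i => ⟨z i, hz i⟩⟩

theorem cptL_tpo {f f' : X → V} {A : Finset X} (h : cptL 𝔹 F 𝒰 f A) (h' : cptL 𝔹 F 𝒰 f' A) :
    TpOn 𝔹 (A : Set X) f f' :=
  ⟨fun a ha b hb => (h.1 a ha b hb).trans (h'.1 a ha b hb).symm,
    fun l z hz => (h.2 l z hz).trans (h'.2 l z hz).symm⟩

theorem cptL_of_tpo {f f' : X → V} {A : Finset X} (h : cptL 𝔹 F 𝒰 f A)
    (h' : TpOn 𝔹 (A : Set X) f f') : cptL 𝔹 F 𝒰 f' A :=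
  ⟨fun a ha b hb => (h'.1 a ha b hb).symm.trans (h.1 a ha b hb),
    fun l z hz => (h'.2 l z hz).symm.trans (h.2 l z hz)⟩

theorem cptL_mono {f : X → V} {A A' : Finset X} (h : cptL 𝔹 F 𝒰 f A) (hA : A' ⊆ A) :
    cptL 𝔹 F 𝒰 f A' :=
  ⟨fun a ha b hb => h.1 a (hA ha) b (hA hb), fun l z hz => h.2 l z fun i => hA (hz i)⟩

theorem cpt_claim2 (hB : HB 𝔹) (A A' U : Finset X) (hA : A ⊆ A') (f : X → V)
    (hf : cptL 𝔹 F 𝒰 f (A ∪ U)) :
    ∃ f' : X → V, cptL 𝔹 F 𝒰 f' (A' ∪ U) ∧ ∀ x ∈ A ∪ U, f' x = f x := by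
  obtain ⟨Y, hY⟩ := (cpt_claim1 𝔹 F 𝒰 (A' ∪ U)).exists
  have hs : A ∪ U ⊆ A' ∪ U := Finset.union_subset_union hA (Finset.Subset.refl U)
  obtain ⟨x', h1, h2, _⟩ := amg_fin hB (A' ∪ U) ((A ∪ U : Finset X) : Set X)
    (Finset.coe_subset.2 hs) (F Y) f ∅ (cptL_tpo 𝔹 F 𝒰 (cptL_mono 𝔹 F 𝒰 hY hs) hf)
  exact ⟨x', cptL_of_tpo 𝔹 F 𝒰 hY h1, fun x hx => h2 x hx⟩

end

theorem pf_CPT : T_CPT := by
  intro V ρ 𝔹 hB X hX U g₀ S ha hb hc
  choose F hF hU using ha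
  rcases isEmpty_or_nonempty X with hE | hN
  · refine ⟨F ∅, fun x _ => hE.elim x, fun Y => ?_⟩
    rw [Finset.eq_empty_of_isEmpty Y]
    exact hF ∅
  obtain ⟨e, he⟩ := exists_surjective_nat X
  choose r hr using he
  let 𝒰 : Ultrafilter (Finset X) := Ultrafilter.of Filter.atTop
  have hle : (𝒰 : Filter (Finset X)) ≤ Filter.atTop := Ultrafilter.of_le _
  let A : ℕ → Finset X := fun n => (Finset.range n).image e
  have hA : ∀ n, A n ⊆ A (n + 1) := fun n =>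
    Finset.image_subset_image (Finset.range_subset_range.2 (Nat.le_succ n))
  have hAm : ∀ m n, m ≤ n → A m ⊆ A n := fun m n h =>
    Finset.image_subset_image (Finset.range_subset_range.2 h)
  obtain ⟨Y₀, hY₀⟩ := (cpt_claim1 𝔹 F 𝒰 (A 0 ∪ U)).exists
  have step : ∀ n (f : X → V), ∃ f' : X → V, cptL 𝔹 F 𝒰 f (A n ∪ U) →
      cptL 𝔹 F 𝒰 f' (A (n + 1) ∪ U) ∧ ∀ x ∈ A n ∪ U, f' x = f x := by
    intro n f
    by_cases h : cptL 𝔹 F 𝒰 f (A n ∪ U)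
    · obtain ⟨f', h1, h2⟩ := cpt_claim2 𝔹 F 𝒰 hB (A n) (A (n + 1)) U (hA n) f h
      exact ⟨f', fun _ => ⟨h1, h2⟩⟩
    · exact ⟨f, fun h' => absurd h' h⟩
  choose st hst using step
  let g : ℕ → X → V := fun n => Nat.rec (F Y₀) (fun n f => st n f) n
  have hg : ∀ n, cptL 𝔹 F 𝒰 (g n) (A n ∪ U) := by
    intro n
    induction n with
    | zero => exact hY₀
    | succ n ih => exact (hst n (g n) ih).1
  have hgs : ∀ n, ∀ x ∈ A n ∪ U, g (n + 1) x = g n x := fun n => (hst n (g n) (hg n)).2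
  have hgm : ∀ m n, m ≤ n → ∀ x ∈ A m ∪ U, g n x = g m x := by
    intro m n hmn
    induction n, hmn using Nat.le_induction with
    | base => exact fun x _ => rfl
    | succ n hmn ih =>
      intro x hx
      rw [hgs n x (Finset.union_subset_union (hAm m n hmn) (Finset.Subset.refl U) hx), ih x hx]
  have hgg : ∀ m n, ∀ x ∈ A m ∪ U, x ∈ A n ∪ U → g m x = g n x := by
    intro m n x hm hn
    rcases le_total m n with h | h
    · exact (hgm m n h x hm).symm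
    · exact hgm n m h x hn
  have hmem : ∀ x, x ∈ A (r x + 1) ∪ U := fun x => Finset.mem_union_left _
    (Finset.mem_image.2 ⟨r x, Finset.mem_range.2 (Nat.lt_succ_self _), hr x⟩)
  let f : X → V := fun x => g (r x + 1) x
  have hfg : ∀ m, ∀ x ∈ A m ∪ U, f x = g m x := fun m x hx => hgg _ _ x (hmem x) hx
  have hfL : ∀ Y : Finset X, cptL 𝔹 F 𝒰 f Y := by
    intro Y
    have hY : Y ⊆ A (Y.sup r + 1) ∪ U := by
      intro x hx
      refine Finset.mem_union_left _ (Finset.mem_image.2 ⟨r x, Finset.mem_range.2 ?_, hr x⟩)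
      have := Finset.le_sup (f := r) hx
      omega
    refine cptL_mono 𝔹 F 𝒰 (cptL_of_tpo 𝔹 F 𝒰 (hg (Y.sup r + 1)) ?_) hY
    exact tpo_congr (tpo_refl _ (g (Y.sup r + 1))) (fun _ _ => rfl)
      (fun a ha => hfg _ a ha)
  refine ⟨f, fun x hx => ?_, fun Y => ?_⟩
  · rw [hfg 0 x (Finset.mem_union_right _ hx)]
    exact hU Y₀ x hx
  · obtain ⟨Y', h1, h2⟩ := ((cpt_claim1 𝔹 F 𝒰 Y).and
      (hle (Filter.eventually_ge_atTop Y))).exists
    exact hc Y (F Y') f (hb Y' Y (F Y') h2 (hF Y')) (cptL_tpo 𝔹 F 𝒰 h1 (hfL Y))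

end Pool.Agent.H94.FB
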